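import Mathlib

/-!
# Isotropic classes in the closed movable cone of a hyperkaehler manifold

`HKData N` records what Markman's theorems give for a projective hyperkaehler manifold `X` with
Neron-Severi group `N`: the Beauville-Bogomolov form, an ample class, the image `Γ` of the group of
Hodge monodromy operators, and the classes `E` of the prime exceptional divisors.  The closed
movable cone is the chamber `Mov` cut out by the prime exceptional classes, and the image of
`Bir X` is the stabiliser of this chamber in `Γ`.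
-/

set_option autoImplicit false

namespace Pool.Agent.Results.MP_283e5d_ag.ExceptionalParabolic

variable {N : Type} [AddCommGroup N]

/-- The group of isometries of the bilinear form `q`. -/
def Isom (q : N →ₗ[ℤ] N →ₗ[ℤ] ℤ) : Subgroup (N ≃ₗ[ℤ] N) where
  carrier := {g | ∀ x y, q (g x) (g y) = q x y}
  mul_mem' := by
    intro a b ha hb x y
    simp only [Set.mem_setOf_eq] at ha hb
    rw [LinearEquiv.mul_apply, LinearEquiv.mul_apply, ha, hb]
  one_mem' := by
    intro x y
    rfl
  inv_mem' := by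
    intro a ha x y
    simp only [Set.mem_setOf_eq] at ha
    have h1 : ∀ z, a (a⁻¹ z) = z := fun z => by
      rw [← LinearEquiv.mul_apply, mul_inv_cancel]
      rfl
    rw [← ha, h1, h1]

/-- The numerical data of a projective hyperkaehler manifold. -/
structure HKData (N : Type) [AddCommGroup N] where
  /-- the Beauville-Bogomolov form on the Neron-Severi group -/
  q : N →ₗ[ℤ] N →ₗ[ℤ] ℤ
  symm : ∀ x y, q x y = q y x
  /-- an ample class -/
  h : N
  h_pos : 0 < q h h
  /-- the form has signature `(1, ρ - 1)` -/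
  hodge_index : ∀ x, q h x = 0 → x ≠ 0 → q x x < 0
  /-- the image of the group of Hodge monodromy operators -/
  Γ : Subgroup (N ≃ₗ[ℤ] N)
  isometry : Γ ≤ Isom q
  finite_index : Γ.relIndex (Isom q) ≠ 0
  /-- the monodromy operators preserve the closed positive cone -/
  positive : ∀ g ∈ Γ, ∀ x, 0 ≤ q x x → 0 ≤ q h x → 0 ≤ q h (g x)
  /-- the classes of the prime exceptional divisors -/
  E : Set N
  E_neg : ∀ e ∈ E, q e e < 0
  E_pos : ∀ e ∈ E, 0 < q h e
  /-- the reflections in the prime exceptional classes are Hodge monodromy operators -/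
  reflection : ∀ e ∈ E, ∃ s ∈ Γ, ∀ x, q e e • s x = q e e • x - (2 * q x e) • e
  /-- the ample class lies on no wall `(g e)^⊥` -/
  chamber : ∀ g ∈ Γ, ∀ e ∈ E, q h (g e) ≠ 0
  /-- an exceptional class on the positive side is, up to a multiple, a sum of prime ones -/
  generation : ∀ g ∈ Γ, ∀ e ∈ E, 0 < q h (g e) →
    ∃ n : ℕ, 0 < n ∧ n • g e ∈ AddSubmonoid.closure E

namespace HKData

variable (X : HKData N)

/-- The integral classes in the closure of the movable cone. -/
def Mov : Set N := {x | 0 ≤ X.q x x ∧ 0 ≤ X.q X.h x ∧ ∀ e ∈ X.E, 0 ≤ X.q x e}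

/-- The image of the group of birational automorphisms in the isometry group of the Neron-Severi
group: the Hodge monodromy operators that preserve the movable cone. -/
def Bir : Subgroup (N ≃ₗ[ℤ] N) where
  carrier := {g | g ∈ X.Γ ∧ ∀ x, g x ∈ X.Mov ↔ x ∈ X.Mov}
  mul_mem' := by
    rintro a b ⟨ha, ha'⟩ ⟨hb, hb'⟩
    refine ⟨X.Γ.mul_mem ha hb, fun x => ?_⟩
    rw [LinearEquiv.mul_apply, ha', hb']
  one_mem' := ⟨X.Γ.one_mem, fun x => Iff.rfl⟩
  inv_mem' := by
    rintro a ⟨ha, ha'⟩
    refine ⟨X.Γ.inv_mem ha, fun x => ?_⟩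
    rw [← ha', ← LinearEquiv.mul_apply, mul_inv_cancel]
    rfl

/-- The exceptional classes on the positive side: images of prime exceptional classes under Hodge
monodromy operators that meet the ample class positively. -/
def Exc : Set N := {r | (∃ g ∈ X.Γ, ∃ e ∈ X.E, r = g e) ∧ 0 < X.q X.h r}

end HKData

/-! ### Eichler transvections -/

section transvection

variable (q : N →ₗ[ℤ] N →ₗ[ℤ] ℤ)

/-- The transvection with respect to the isotropic class `L` and the class `2 w`. -/
def tv (L w x : N) : N :=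
  x + (2 * q x L) • w - (2 * q x w) • L - (2 * (q w w * q x L)) • L

variable {q}
variable (hs : ∀ x y, q x y = q y x) {L : N} (hL : q L L = 0)

include hs hL in
theorem tv_q_L {w : N} (hw : q w L = 0) (x : N) : q (tv q L w x) L = q x L := by
  simp only [tv, map_add, map_sub, map_smul, LinearMap.add_apply, LinearMap.sub_apply,
    LinearMap.smul_apply, smul_eq_mul, hw, hL]
  ring

include hs hL in
theorem tv_q {w : N} (hw : q w L = 0) (x y : N) : q (tv q L w x) (tv q L w y) = q x y := by
  have h1 : q L w = 0 := by rw [hs, hw]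
  simp only [tv, map_add, map_sub, map_smul, LinearMap.add_apply, LinearMap.sub_apply,
    LinearMap.smul_apply, smul_eq_mul, hw, hL, h1, hs L y, hs w y]
  ring

include hs hL in
theorem tv_tv {w w' : N} (hw : q w L = 0) (hw' : q w' L = 0) (x : N) :
    tv q L w (tv q L w' x) = tv q L (w + w') x := by
  have h1 : q L w = 0 := by rw [hs, hw]
  have h2 := hs w' w
  simp only [tv, map_add, map_sub, map_smul, LinearMap.add_apply, LinearMap.sub_apply,
    LinearMap.smul_apply, smul_eq_mul, hw, hw', hL, h1, h2]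
  module

theorem tv_zero (x : N) : tv q L 0 x = x := by
  simp [tv]

theorem tv_add (w x y : N) : tv q L w (x + y) = tv q L w x + tv q L w y := by
  simp only [tv, map_add, LinearMap.add_apply]
  module

theorem tv_smul (w : N) (c : ℤ) (x : N) : tv q L w (c • x) = c • tv q L w x := by
  simp only [tv, map_smul, LinearMap.smul_apply, smul_eq_mul]
  module

/-- The transvection as an automorphism. -/
def tvE {w : N} (hw : q w L = 0) : N ≃ₗ[ℤ] N where
  toFun := tv q L w
  map_add' := tv_add w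
  map_smul' := tv_smul w
  invFun := tv q L (-w)
  left_inv := fun x => by
    rw [tv_tv hs hL (by rw [map_neg, LinearMap.neg_apply, hw, neg_zero]) hw, neg_add_cancel,
      tv_zero]
  right_inv := fun x => by
    rw [tv_tv hs hL hw (by rw [map_neg, LinearMap.neg_apply, hw, neg_zero]), add_neg_cancel,
      tv_zero]

theorem tvE_apply {w : N} (hw : q w L = 0) (x : N) : tvE hs hL hw x = tv q L w x := rfl

theorem tvE_mem {w : N} (hw : q w L = 0) : tvE hs hL hw ∈ Isom q :=
  fun x y => tv_q hs hL hw x y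

theorem tvE_pow {w : N} (hw : q w L = 0) (k : ℕ) (x : N) :
    ((tvE hs hL hw) ^ k) x = tv q L (k • w) x := by
  induction k generalizing x with
  | zero => rw [pow_zero, zero_smul, tv_zero]; rfl
  | succ k ih =>
    have hk : q (k • w) L = 0 := by
      rw [map_nsmul, LinearMap.smul_apply, hw, smul_zero]
    rw [pow_succ, LinearEquiv.mul_apply, ih, tvE_apply, tv_tv hs hL hk hw]
    congr 1
    rw [add_smul, one_smul]

end transvection

namespace HKData

variable {X : HKData N}

theorem inv_apply_self' (g : N ≃ₗ[ℤ] N) (x : N) : g⁻¹ (g x) = x := by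
  rw [← LinearEquiv.mul_apply, inv_mul_cancel]
  rfl

theorem apply_inv_self' (g : N ≃ₗ[ℤ] N) (x : N) : g (g⁻¹ x) = x := by
  rw [← LinearEquiv.mul_apply, mul_inv_cancel]
  rfl

/-- An isotropic non-zero class of the closed movable cone meets `h` positively. -/
theorem h_L_pos {L : N} (hL : L ≠ 0) (hq : X.q L L = 0) (hm : L ∈ X.Mov) : 0 < X.q X.h L := by
  rcases lt_or_eq_of_le hm.2.1 with h | h
  · exact h
  · have := X.hodge_index L h.symm hL
    omega

theorem neg_reflect {g : N ≃ₗ[ℤ] N} (hg : g ∈ X.Γ) {e : N} (he : e ∈ X.E)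
    [Module.Free ℤ N] :
    ∃ g' ∈ X.Γ, g' e = - g e := by
  obtain ⟨s, hs, hse⟩ := X.reflection e he
  have h1 := hse e
  have h2 := X.E_neg e he
  have h3 : s e = - e := by
    have h4 : X.q e e • (s e + e) = 0 := by
      rw [smul_add, h1]
      module
    rcases smul_eq_zero.1 h4 with h5 | h5
    · omega
    · exact eq_neg_of_add_eq_zero_left h5
  exact ⟨g * s, X.Γ.mul_mem hg hs, by rw [LinearEquiv.mul_apply, h3, map_neg]⟩

/-- An exceptional class on the positive side meets the classes of `Mov` non-negatively. -/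
theorem exc_nonneg {x : N} (hx : x ∈ X.Mov) {r : N} (hr : r ∈ X.Exc) : 0 ≤ X.q x r := by
  obtain ⟨⟨g, hg, e, he, rfl⟩, hpos⟩ := hr
  obtain ⟨n, hn, hmem⟩ := X.generation g hg e he hpos
  have h1 : ∀ y ∈ AddSubmonoid.closure X.E, 0 ≤ X.q x y := by
    intro y hy
    induction hy using AddSubmonoid.closure_induction with
    | mem y hy => exact hx.2.2 y hy
    | zero => simp
    | add a b _ _ ha hb => rw [map_add]; omega
  have h2 := h1 _ hmem
  rw [map_nsmul, nsmul_eq_mul] at h2
  have h3 : (0 : ℤ) < n := by exact_mod_cast hn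
  exact nonneg_of_mul_nonneg_right h2 h3

theorem exc_of_E {e : N} (he : e ∈ X.E) : e ∈ X.Exc :=
  ⟨⟨1, X.Γ.one_mem, e, he, rfl⟩, X.E_pos e he⟩

/-- An exceptional class, or its negative, is on the positive side. -/
theorem exc_or {g : N ≃ₗ[ℤ] N} (hg : g ∈ X.Γ) {e : N} (he : e ∈ X.E) [Module.Free ℤ N] :
    g e ∈ X.Exc ∨ - g e ∈ X.Exc := by
  rcases lt_or_gt_of_ne (X.chamber g hg e he) with h | h
  · obtain ⟨g', hg', hge⟩ := neg_reflect hg he
    exact Or.inr ⟨⟨g', hg', e, he, hge.symm⟩, by rw [map_neg]; omega⟩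
  · exact Or.inl ⟨⟨g, hg, e, he, rfl⟩, h⟩

/-- **First case.**  If `L` is orthogonal to a prime exceptional class `e`, then a multiple of `L`
is the sum of `e` and of another exceptional class. -/
theorem orth_case {L : N} (hL : L ≠ 0) (hq : X.q L L = 0) (hm : L ∈ X.Mov) [Module.Free ℤ N]
    {e : N} (he : e ∈ X.E) (heL : X.q L e = 0) :
    ∃ n : ℕ, 0 < n ∧ ∃ r ∈ X.Exc, n • L = e + r := by
  have hLp := h_L_pos hL hq hm
  have hee := X.E_neg e he
  have hw : X.q (-e) L = 0 := by
    rw [map_neg, LinearMap.neg_apply, X.symm, heL, neg_zero]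
  obtain ⟨k, hk, -, hkmem⟩ := Subgroup.exists_pow_mem_of_relIndex_ne_zero X.finite_index
    (tvE_mem X.symm hq hw)
  set j : ℕ := (X.q X.h e).toNat + 1 with hj
  have hhe := X.E_pos e he
  have hg : ((tvE X.symm hq hw) ^ k) ^ j ∈ X.Γ := X.Γ.pow_mem hkmem.1 j
  have hge : (((tvE X.symm hq hw) ^ k) ^ j) e = e + (2 * (k * j : ℕ) * X.q e e) • L := by
    rw [← pow_mul, tvE_pow]
    have h1 : X.q e L = 0 := by rw [X.symm, heL]
    simp only [tv, h1, mul_zero, zero_smul, add_zero, sub_zero, map_nsmul, map_neg, smul_neg,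
      nsmul_eq_mul]
    module
  obtain ⟨g', hg', hge'⟩ := neg_reflect hg he
  have hc : 0 < -(2 * ((k * j : ℕ) : ℤ) * X.q e e) := by
    have : (0 : ℤ) < ((k * j : ℕ) : ℤ) := by
      have : 0 < k * j := Nat.mul_pos hk (by omega)
      exact_mod_cast this
    nlinarith
  set c : ℤ := -(2 * ((k * j : ℕ) : ℤ) * X.q e e) with hcdef
  refine ⟨c.toNat, by omega, g' e, ⟨⟨g', hg', e, he, rfl⟩, ?_⟩, ?_⟩
  · rw [hge', hge, map_neg, map_add, map_smul, smul_eq_mul]
    have hkj : (X.q X.h e : ℤ) < ((k * j : ℕ) : ℤ) := by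
      have h1 : X.q X.h e < (j : ℤ) := by rw [hj]; push_cast; omega
      have h2 : (j : ℤ) ≤ ((k * j : ℕ) : ℤ) := by
        exact_mod_cast Nat.le_mul_of_pos_left j hk
      omega
    have h3 : ((k * j : ℕ) : ℤ) ≤ c := by
      rw [hcdef]; nlinarith
    nlinarith
  · have h4 : (c.toNat : ℤ) • L = e + g' e := by
      rw [hge', hge, Int.toNat_of_nonneg hc.le, hcdef]
      module
    rw [← h4, natCast_zsmul]

/-- A sum of prime exceptional classes, none orthogonal to `L`, is zero or meets `L`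
positively. -/
theorem closure_pos {L : N} (hm : L ∈ X.Mov) (hno : ∀ e ∈ X.E, X.q L e ≠ 0) {y : N}
    (hy : y ∈ AddSubmonoid.closure X.E) : y = 0 ∨ 0 < X.q L y := by
  induction hy using AddSubmonoid.closure_induction with
  | mem y hy => exact Or.inr (lt_of_le_of_ne (hm.2.2 y hy) (hno y hy).symm)
  | zero => exact Or.inl rfl
  | add a b _ _ ha hb =>
    rw [map_add]
    rcases ha with rfl | ha <;> rcases hb with rfl | hb
    · left; simp
    · right; simpa using hb
    · right; simpa using ha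
    · right; omega

theorem exc_L_pos {L : N} (hm : L ∈ X.Mov) (hno : ∀ e ∈ X.E, X.q L e ≠ 0) {r : N}
    (hr : r ∈ X.Exc) : 0 < X.q L r := by
  obtain ⟨⟨g, hg, e, he, rfl⟩, hpos⟩ := hr
  obtain ⟨n, hn, hmem⟩ := X.generation g hg e he hpos
  have hn' : (0 : ℤ) < n := by exact_mod_cast hn
  rcases closure_pos hm hno hmem with h | h
  · exfalso
    have h1 : X.q X.h (n • g e) = 0 := by rw [h, map_zero]
    rw [map_nsmul, nsmul_eq_mul] at h1
    have := mul_pos hn' hpos
    omega
  · rw [map_nsmul, nsmul_eq_mul] at h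
    exact pos_of_mul_pos_right h hn'.le

/-- **Second case.**  If no prime exceptional class is orthogonal to `L`, then every Hodge
monodromy operator that fixes `L` preserves the movable cone. -/
theorem stab_exc {L : N} (hm : L ∈ X.Mov) (hno : ∀ e ∈ X.E, X.q L e ≠ 0) [Module.Free ℤ N]
    {g : N ≃ₗ[ℤ] N} (hg : g ∈ X.Γ) (hgL : g L = L) {r : N} (hr : r ∈ X.Exc) : g r ∈ X.Exc := by
  have hr' := hr
  obtain ⟨⟨g0, hg0, e, he, rfl⟩, hpos⟩ := hr'
  rcases exc_or (X.Γ.mul_mem hg hg0) he with h | h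
  · rwa [LinearEquiv.mul_apply] at h
  · exfalso
    rw [LinearEquiv.mul_apply] at h
    have h1 := exc_L_pos hm hno h
    have h2 := exc_L_pos hm hno hr
    rw [map_neg] at h1
    have h3 : X.q L (g (g0 e)) = X.q L (g0 e) := by
      conv_lhs => rw [← hgL]
      exact X.isometry hg L (g0 e)
    omega

theorem stab_mov {L : N} (hm : L ∈ X.Mov) (hno : ∀ e ∈ X.E, X.q L e ≠ 0) [Module.Free ℤ N]
    {g : N ≃ₗ[ℤ] N} (hg : g ∈ X.Γ) (hgL : g L = L) {x : N} (hx : x ∈ X.Mov) : g x ∈ X.Mov := by
  refine ⟨by rw [X.isometry hg]; exact hx.1, X.positive g hg x hx.1 hx.2.1, fun e he => ?_⟩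
  have hg1 : g⁻¹ ∈ X.Γ := X.Γ.inv_mem hg
  have hgL1 : g⁻¹ L = L := by
    conv_lhs => rw [← hgL]
    exact inv_apply_self' g L
  have h1 := exc_nonneg hx (stab_exc hm hno hg1 hgL1 (exc_of_E he))
  rwa [← X.isometry hg, apply_inv_self'] at h1

theorem stab_bir {L : N} (hm : L ∈ X.Mov) (hno : ∀ e ∈ X.E, X.q L e ≠ 0) [Module.Free ℤ N]
    {g : N ≃ₗ[ℤ] N} (hg : g ∈ X.Γ) (hgL : g L = L) : g ∈ X.Bir := by
  refine ⟨hg, fun x => ⟨fun h => ?_, fun h => stab_mov hm hno hg hgL h⟩⟩
  have hgL1 : g⁻¹ L = L := by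
    conv_lhs => rw [← hgL]
    exact inv_apply_self' g L
  have := stab_mov hm hno (X.Γ.inv_mem hg) hgL1 h
  rwa [inv_apply_self'] at this

/-- The classes orthogonal to `L` and to `h`. -/
def orth (X : HKData N) (L : N) : Submodule ℤ N :=
  LinearMap.ker ((X.q L).prod (X.q X.h))

theorem mem_orth {L w : N} : w ∈ orth X L ↔ X.q L w = 0 ∧ X.q X.h w = 0 := by
  rw [orth, LinearMap.mem_ker]
  exact Prod.mk_eq_zero

theorem finrank_orth [Module.Free ℤ N] [Module.Finite ℤ N] (L : N) :
    Module.finrank ℤ N - 2 ≤ Module.finrank ℤ (orth X L) := by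
  have h1 := (orth X L).finrank_quotient_add_finrank
  have h2 : Module.finrank ℤ (N ⧸ orth X L) ≤ 2 := by
    have e := (((X.q L).prod (X.q X.h)).quotKerEquivRange).finrank_eq
    have h3 : Module.finrank ℤ (LinearMap.range ((X.q L).prod (X.q X.h))) ≤
        Module.finrank ℤ (ℤ × ℤ) := Submodule.finrank_le _
    have h4 : Module.finrank ℤ (ℤ × ℤ) = 2 := by
      rw [Module.finrank_prod, Module.finrank_self]
    rw [h4] at h3
    exact e.le.trans h3
  omega

/-- The transvections with respect to the classes `2 m w`, `w` orthogonal to `L` and `h`. -/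
def tvHom (X : HKData N) {L : N} (hq : X.q L L = 0) (m : ℕ) :
    Multiplicative (orth X L) →* (N ≃ₗ[ℤ] N) where
  toFun w := tvE X.symm hq (w := m • ((Multiplicative.toAdd w : orth X L) : N)) (by
    rw [map_nsmul, LinearMap.smul_apply, X.symm, (mem_orth.1 (Multiplicative.toAdd w).2).1,
      smul_zero])
  map_one' := by
    ext x
    rw [tvE_apply]
    have : (m • ((Multiplicative.toAdd (1 : Multiplicative (orth X L)) : orth X L) : N)) = 0 := by
      rw [toAdd_one, ZeroMemClass.coe_zero, smul_zero]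
    rw [this, tv_zero]
    rfl
  map_mul' := by
    intro a b
    ext x
    rw [LinearEquiv.mul_apply, tvE_apply, tvE_apply, tvE_apply, tv_tv X.symm hq]
    · rw [toAdd_mul, Submodule.coe_add, smul_add]
    · rw [map_nsmul, LinearMap.smul_apply, X.symm, (mem_orth.1 (Multiplicative.toAdd a).2).1,
        smul_zero]
    · rw [map_nsmul, LinearMap.smul_apply, X.symm, (mem_orth.1 (Multiplicative.toAdd b).2).1,
        smul_zero]

theorem tvHom_apply {L : N} (hq : X.q L L = 0) (m : ℕ) (w : Multiplicative (orth X L)) (x : N) :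
    tvHom X hq m w x = tv X.q L (m • ((Multiplicative.toAdd w : orth X L) : N)) x := rfl

theorem tv_L {q : N →ₗ[ℤ] N →ₗ[ℤ] ℤ} {L w : N} (hL : q L L = 0) (hw : q L w = 0) :
    tv q L w L = L := by
  simp only [tv, hL, hw, mul_zero, zero_smul, add_zero, sub_zero]

theorem tvHom_L {L : N} (hq : X.q L L = 0) (m : ℕ) (w : Multiplicative (orth X L)) :
    tvHom X hq m w L = L := by
  rw [tvHom_apply]
  refine tv_L hq ?_
  rw [map_nsmul, (mem_orth.1 (Multiplicative.toAdd w).2).1, smul_zero]

theorem tvHom_injective {L : N} (hL : L ≠ 0) (hq : X.q L L = 0) (hm : L ∈ X.Mov) {m : ℕ}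
    (hm0 : 0 < m) [Module.Free ℤ N] : Function.Injective (tvHom X hq m) := by
  rw [injective_iff_map_eq_one]
  intro w hw
  have h1 : tvHom X hq m w X.h = X.h := by rw [hw]; rfl
  have hLp := h_L_pos hL hq hm
  obtain ⟨hwL, hwh⟩ := mem_orth.1 (Multiplicative.toAdd w).2
  rw [tvHom_apply] at h1
  set u : N := ((Multiplicative.toAdd w : orth X L) : N) with hu
  have h2 : X.q X.h (tv X.q L (m • u) X.h) = X.q X.h X.h := by rw [h1]
  simp only [tv, map_add, map_sub, map_smul, map_nsmul, LinearMap.smul_apply, smul_eq_mul,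
    nsmul_eq_mul, hwh, mul_zero, sub_zero, add_zero] at h2
  have h3 : X.q u u = 0 := by
    have hm1 : (0 : ℤ) < m := by exact_mod_cast hm0
    by_contra h4
    have h5 : (2 * ((m : ℤ) * (m * X.q u u) * X.q X.h L)) * X.q X.h L ≠ 0 := by
      refine mul_ne_zero (mul_ne_zero two_ne_zero (mul_ne_zero (mul_ne_zero hm1.ne'
        (mul_ne_zero hm1.ne' h4)) hLp.ne')) hLp.ne'
    apply h5
    linarith
  have h6 : u = 0 := by
    by_contra h7
    have := X.hodge_index u hwh h7
    omega
  have h8 : (Multiplicative.toAdd w : orth X L) = 0 := Subtype.ext h6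
  exact Multiplicative.toAdd.injective h8

/-- A free abelian group of rank `ρ - 2` in the stabiliser. -/
theorem exists_hom {L : N} (hL : L ≠ 0) (hq : X.q L L = 0) (hm : L ∈ X.Mov)
    (hno : ∀ e ∈ X.E, X.q L e ≠ 0) [Module.Free ℤ N] [Module.Finite ℤ N] :
    ∃ φ : Multiplicative (Fin (Module.finrank ℤ N - 2) → ℤ) →* (N ≃ₗ[ℤ] N),
      Function.Injective φ ∧ ∀ v, φ v ∈ X.Bir ∧ φ v L = L := by
  set m : ℕ := (X.Γ.relIndex (Isom X.q)).factorial with hmdef
  have hm0 : 0 < m := Nat.factorial_pos _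
  have hdvd : ∀ n, 0 < n → n ≤ X.Γ.relIndex (Isom X.q) → n ∣ m :=
    fun n h1 h2 => Nat.dvd_factorial h1 h2
  have hmem : ∀ w, tvHom X hq m w ∈ X.Bir ∧ tvHom X hq m w L = L := by
    intro w
    refine ⟨stab_bir hm hno ?_ (tvHom_L hq m w), tvHom_L hq m w⟩
    have hwL : X.q ((Multiplicative.toAdd w : orth X L) : N) L = 0 := by
      rw [X.symm, (mem_orth.1 (Multiplicative.toAdd w).2).1]
    have h1 := Subgroup.pow_mem_of_relIndex_ne_zero_of_dvd X.finite_index
      (tvE_mem X.symm hq hwL) hdvd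
    have h2 : (tvE X.symm hq hwL) ^ m = tvHom X hq m w := by
      ext x
      rw [tvE_pow, tvHom_apply]
    rw [← h2]
    exact h1.1
  obtain ⟨f, hf⟩ : ∃ f : (Fin (Module.finrank ℤ N - 2) → ℤ) →ₗ[ℤ] orth X L,
      Function.Injective f := by
    let b := Module.finBasis ℤ (orth X L)
    have hc := finrank_orth (X := X) L
    refine ⟨Fintype.linearCombination ℤ (fun i => b (Fin.castLE hc i)), ?_⟩
    have := b.linearIndependent.comp (Fin.castLE hc) (Fin.castLE_injective hc)
    exact linearIndependent_iff_injective_fintypeLinearCombination.1 this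
  refine ⟨(tvHom X hq m).comp (AddMonoidHom.toMultiplicative f.toAddMonoidHom), ?_, ?_⟩
  · intro a b hab
    have h1 := tvHom_injective hL hq hm hm0 hab
    exact hf h1
  · intro v
    exact hmem _

end HKData

open HKData

/-- Let `L ≠ 0` be an isotropic integral class in the closure of the movable cone of a projective
hyperkaehler manifold with Picard number `ρ`.
(1) If `L` is orthogonal to a prime exceptional class `e`, then a positive multiple of `L` is
`e + r` with an exceptional class `r` on the positive side, and a positive multiple of `L` is a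
sum of prime exceptional classes.  (2) Otherwise every Hodge monodromy operator which fixes `L`
comes from `Bir X`, and the stabiliser of `L` in `Bir X` contains a free abelian group of rank
`ρ - 2`. -/
theorem result (N : Type) [AddCommGroup N] [Module.Free ℤ N] [Module.Finite ℤ N]
    (X : HKData N) (L : N) (hL : L ≠ 0) (hq : X.q L L = 0) (hm : L ∈ X.Mov) :
    ((∃ e ∈ X.E, X.q L e = 0) ∧
      (∀ e ∈ X.E, X.q L e = 0 → ∃ n : ℕ, 0 < n ∧ ∃ r ∈ X.Exc, n • L = e + r) ∧
      ∃ n : ℕ, 0 < n ∧ n • L ∈ AddSubmonoid.closure X.E) ∨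
    ((∀ e ∈ X.E, X.q L e ≠ 0) ∧ (∀ g ∈ X.Γ, g L = L → g ∈ X.Bir) ∧
      ∃ φ : Multiplicative (Fin (Module.finrank ℤ N - 2) → ℤ) →* (N ≃ₗ[ℤ] N),
        Function.Injective φ ∧ ∀ v, φ v ∈ X.Bir ∧ φ v L = L) := by
  by_cases h : ∃ e ∈ X.E, X.q L e = 0
  · left
    refine ⟨h, fun e he heL => orth_case hL hq hm he heL, ?_⟩
    obtain ⟨e, he, heL⟩ := h
    obtain ⟨n, hn, r, ⟨⟨g, hg, e', he', rfl⟩, hr⟩, hnr⟩ := orth_case hL hq hm he heL
    obtain ⟨k, hk, hkr⟩ := X.generation g hg e' he' hr
    refine ⟨k * n, Nat.mul_pos hk hn, ?_⟩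
    rw [mul_smul, hnr, smul_add]
    exact add_mem (AddSubmonoid.nsmul_mem _ (AddSubmonoid.subset_closure he) k) hkr
  · right
    have hno : ∀ e ∈ X.E, X.q L e ≠ 0 := fun e he h0 => h ⟨e, he, h0⟩
    exact ⟨hno, fun g hg hgL => stab_bir hm hno hg hgL, exists_hom hL hq hm hno⟩

end Pool.Agent.Results.MP_283e5d_ag.ExceptionalParabolic
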